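import Pool.Agent.Q132.Books

namespace Pool.Agent.Results.MP_a60869_co.Books

open Pool.Agent.Q132 Pool.Agent.Q132.Books

/-- For every `n ≥ 5` that is even or congruent to `5` modulo `8` the book `B_n` is super
edge-magic. -/
theorem result (n : ℕ) (hn : 5 ≤ n) (h : Even n ∨ n % 8 = 5) : SuperEdgeMagic (book n) := by
  rcases h with h | h
  · exact even_books n hn h
  · exact odd_books n h

end Pool.Agent.Results.MP_a60869_co.Books
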